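import Pool.Agent.Helper26.MCE.GoalsC

/-!
Packet 9897: preimages of minimal complements.
-/

namespace Pool.Agent.Helper50.MCE

open Pool.Agent.Helper26.MCE Pool.Agent.Helper87.MC Pointwise

theorem goalLIFT : G_LIFT := by
  intro G _ P C' hC'
  obtain ⟨W', hW, hmin⟩ := hC'
  let σ : G ⧸ P → G := Quotient.out
  have hσ : ∀ x : G ⧸ P, ((σ x : G) : G ⧸ P) = x := fun x => Quotient.out_eq x
  refine ⟨σ '' W', ?_, ?_⟩
  · apply Set.eq_univ_of_forall
    intro g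
    have h : (g : G ⧸ P) ∈ W' + C' := hW ▸ Set.mem_univ _
    obtain ⟨w', hw', c', hc', e⟩ := Set.mem_add.1 h
    refine Set.mem_add.2 ⟨σ w', ⟨w', hw', rfl⟩, g - σ w', ?_, by abel⟩
    show ((g - σ w' : G) : G ⧸ P) ∈ C'
    have h5 : ((g - σ w' : G) : G ⧸ P) = c' := by
      rw [QuotientAddGroup.mk_sub, hσ, ← e]
      abel
    rw [h5]
    exact hc'
  · intro C₁ hC₁ huniv
    obtain ⟨hsub, hne⟩ := hC₁
    obtain ⟨c, hcC, hcn⟩ := Set.not_subset.1 hne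
    have hcC' : ((c : G) : G ⧸ P) ∈ C' := hcC
    have hss : C' \ {((c : G) : G ⧸ P)} ⊂ C' := by
      refine ⟨Set.sdiff_subset, fun h => ?_⟩
      exact (h hcC').2 rfl
    have h1 := hmin _ hss
    obtain ⟨g', hg'⟩ := (Set.ne_univ_iff_exists_notMem _).1 h1
    have h2 : g' ∈ W' + C' := hW ▸ Set.mem_univ _
    obtain ⟨w', hw', c', hc', e⟩ := Set.mem_add.1 h2
    have hcc : c' = (c : G ⧸ P) := by
      by_contra hne'
      exact hg' (Set.mem_add.2 ⟨w', hw', c', ⟨hc', hne'⟩, e⟩)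
    have h3 : σ w' + c ∈ σ '' W' + C₁ := huniv ▸ Set.mem_univ _
    obtain ⟨u, ⟨w₁, hw₁, rfl⟩, c₁, hc₁, e₁⟩ := Set.mem_add.1 h3
    have e2 : w₁ + (c₁ : G ⧸ P) = g' := by
      have h6 := congrArg (fun x : G => (x : G ⧸ P)) e₁
      simp only [QuotientAddGroup.mk_add, hσ] at h6
      rw [h6, ← hcc, e]
    have e3 : (c₁ : G ⧸ P) = (c : G ⧸ P) := by
      by_contra hne'
      exact hg' (Set.mem_add.2 ⟨w₁, hw₁, (c₁ : G ⧸ P), ⟨hsub hc₁, hne'⟩, e2⟩)
    have e4 : w₁ = w' := by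
      rw [← hcc] at e3
      rw [e3, ← e] at e2
      exact add_right_cancel e2
    subst e4
    have h7 : c₁ = c := add_left_cancel e₁
    exact hcn (h7 ▸ hc₁)

end Pool.Agent.Helper50.MCE
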